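import Pool.Agent.K6.H93.AffSpace

/-!
# Affine spaces with intersection sizes congruent to 1 mod `s`

If `p ≡ 1 (mod s)` is prime, `s ≥ 8`, and the transported copy `A'` of `A = AG(d,p)` has the
property that every nonempty intersection of a flat of `A` with a flat of `A'` has size
`≡ 1 (mod s)`, then `A' = A`.
-/

namespace Pool.Agent.Results.MP_66067f_co.IntersectOneModS

open Pool.Agent.K6.H93.Aff

/-- The flats of `AG(d,p)`: all cosets `v + W` of linear subspaces `W` of `(ZMod p)^d`. -/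
def flats (p d : ℕ) : Set (Set (Fin d → ZMod p)) :=
  {S | ∃ (v : Fin d → ZMod p) (W : Submodule (ZMod p) (Fin d → ZMod p)), S = {x | x - v ∈ W}}

variable {p : ℕ} [Fact p.Prime] {d : ℕ}

lemma line_mem_flats (u w : Fin d → ZMod p) : {z | OnL u w z} ∈ flats p d := by
  refine ⟨u, Submodule.span (ZMod p) {w - u}, ?_⟩
  ext z
  rw [Set.mem_ofPred_eq, Set.mem_ofPred_eq, Submodule.mem_span_singleton]
  constructor
  · rintro ⟨t, rfl⟩
    exact ⟨t, by abel⟩
  · rintro ⟨t, ht⟩
    exact ⟨t, by rw [ht]; abel⟩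

lemma card_line (u w : Fin d → ZMod p) (h : u ≠ w) : {z | OnL u w z}.ncard = p := by
  have h1 : {z | OnL u w z} = (fun t : ZMod p => u + t • (w - u)) '' Set.univ := by
    ext z
    constructor
    · rintro ⟨t, rfl⟩
      exact ⟨t, Set.mem_univ _, rfl⟩
    · rintro ⟨t, -, rfl⟩
      exact ⟨t, rfl⟩
  rw [h1, Set.ncard_image_of_injective, Set.ncard_univ, Nat.card_zmod]
  intro t t' htt
  simp only [add_right_inj] at htt
  have h2 : (t - t') • (w - u) = 0 := by rw [sub_smul, htt, sub_self]
  rcases smul_eq_zero.1 h2 with h3 | h3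
  · exact sub_eq_zero.1 h3
  · exact absurd (sub_eq_zero.1 h3).symm h

lemma onL_left (u w : Fin d → ZMod p) : OnL u w u := ⟨0, by simp⟩

lemma onL_right (u w : Fin d → ZMod p) : OnL u w w := ⟨1, by simp⟩

/-- The hypothesis on intersections of lines forces preimages of lines to be collinear. -/
lemma lines_pulled_back (hp : 7 ≤ p) {s : ℕ} (hs : 8 ≤ s)
    (g : Equiv.Perm (Fin d → ZMod p))
    (h : ∀ X ∈ flats p d, ∀ Y ∈ flats p d, (X ∩ g '' Y).Nonempty →
      (X ∩ g '' Y).ncard ≡ 1 [MOD s])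
    (x y : Fin d → ZMod p) (hxy : x ≠ y) :
    ∀ u, OnL x y (g u) → ∀ w, OnL x y (g w) → u ≠ w → ∀ z, OnL x y (g z) → OnL u w z := by
  classical
  let U : Finset (Fin d → ZMod p) := Finset.univ.filter (fun a => OnL x y (g a))
  have hmU : ∀ a, a ∈ U ↔ OnL x y (g a) := by intro a; simp [U]
  have hU : U.card = p := by
    refine Eq.trans ?_ (card_line x y hxy)
    rw [← Set.ncard_coe_finset]
    apply Set.ncard_congr (fun a _ => g a)
    · intro a ha
      exact (hmU a).1 ha
    · intro a b _ _ hab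
      exact g.injective hab
    · intro b hb
      exact ⟨g.symm b, (hmU _).2 (by rw [g.apply_symm_apply]; exact hb), g.apply_symm_apply b⟩
  have hmain := space hp U hU (by
    intro u hu w hw huw
    let T : Finset (Fin d → ZMod p) := U.filter (fun a => OnL u w a)
    have hmT : ∀ a, a ∈ T ↔ OnL x y (g a) ∧ OnL u w a := by intro a; simp [T, hmU]
    refine ⟨T, Finset.filter_subset _ _, ?_, fun z hz => ((hmT z).1 hz).2⟩
    have hcard : T.card = ({z | OnL x y z} ∩ g '' {z | OnL u w z}).ncard := by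
      rw [← Set.ncard_coe_finset]
      apply Set.ncard_congr (fun a _ => g a)
      · intro a ha
        have ha' := (hmT a).1 ha
        exact ⟨ha'.1, a, ha'.2, rfl⟩
      · intro a b _ _ hab
        exact g.injective hab
      · rintro b ⟨hb1, a, ha, rfl⟩
        exact ⟨a, (hmT a).2 ⟨hb1, ha⟩, rfl⟩
    have hu' : u ∈ T := (hmT u).2 ⟨(hmU u).1 hu, onL_left u w⟩
    have hw' : w ∈ T := (hmT w).2 ⟨(hmU w).1 hw, onL_right u w⟩
    have h2 : 1 < T.card := Finset.one_lt_card.2 ⟨u, hu', w, hw', huw⟩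
    have h3 := h _ (line_mem_flats x y) _ (line_mem_flats u w)
      ⟨g u, (hmU u).1 hu, u, onL_left u w, rfl⟩
    rw [← hcard] at h3
    have h4 : s ∣ T.card - 1 := (Nat.modEq_iff_dvd' h2.le).1 h3.symm
    have h5 := Nat.le_of_dvd (by omega) h4
    omega)
  intro u hu w hw huw z hz
  exact hmain u ((hmU u).2 hu) w ((hmU w).2 hw) huw z ((hmU z).2 hz)

/-- Preimages of lines contain every line joining two of their points. -/
lemma lines_pulled_back' (hp : 7 ≤ p) {s : ℕ} (hs : 8 ≤ s)
    (g : Equiv.Perm (Fin d → ZMod p))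
    (h : ∀ X ∈ flats p d, ∀ Y ∈ flats p d, (X ∩ g '' Y).Nonempty →
      (X ∩ g '' Y).ncard ≡ 1 [MOD s])
    (u w : Fin d → ZMod p) (huw : u ≠ w) (z : Fin d → ZMod p) (hz : OnL u w z) :
    OnL (g u) (g w) (g z) := by
  classical
  have hguw : g u ≠ g w := fun h => huw (g.injective h)
  have h1 : g ⁻¹' {z | OnL (g u) (g w) z} ⊆ {z | OnL u w z} := by
    intro a ha
    exact lines_pulled_back hp hs g h (g u) (g w) hguw u (onL_left _ _) w (onL_right _ _) huw a ha
  have h2 : (g ⁻¹' {z | OnL (g u) (g w) z}).ncard = p := by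
    refine Eq.trans ?_ (card_line (g u) (g w) hguw)
    apply Set.ncard_congr (fun a _ => g a)
    · intro a ha
      exact ha
    · intro a b _ _ hab
      exact g.injective hab
    · intro b hb
      exact ⟨g.symm b, by rw [Set.mem_preimage, g.apply_symm_apply]; exact hb,
        g.apply_symm_apply b⟩
  have h3 : g ⁻¹' {z | OnL (g u) (g w) z} = {z | OnL u w z} := by
    apply Set.eq_of_subset_of_ncard_le h1
    rw [h2, card_line u w huw]
  have h4 : z ∈ g ⁻¹' {z | OnL (g u) (g w) z} := by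
    rw [h3]
    exact hz
  exact h4

/-- A nonempty set closed under joining lines is a flat. -/
lemma flat_of_closed (hp2 : (2 : ZMod p) ≠ 0) (S : Set (Fin d → ZMod p)) (hne : S.Nonempty)
    (hS : ∀ u ∈ S, ∀ w ∈ S, u ≠ w → ∀ z, OnL u w z → z ∈ S) : S ∈ flats p d := by
  obtain ⟨v, hv⟩ := hne
  have hS' : ∀ u ∈ S, ∀ w ∈ S, ∀ t : ZMod p, u + t • (w - u) ∈ S := by
    intro u hu w hw t
    by_cases huw : u = w
    · subst huw
      simpa using hu
    · exact hS u hu w hw huw _ ⟨t, rfl⟩
  have hsm : ∀ (t : ZMod p) (x : Fin d → ZMod p), v + x ∈ S → v + t • x ∈ S := by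
    intro t x hx
    have := hS' v hv _ hx t
    simpa using this
  refine ⟨v, { carrier := {x | v + x ∈ S}, add_mem' := ?_, zero_mem' := ?_, smul_mem' := ?_ }, ?_⟩
  · intro x y hx hy
    rw [Set.mem_ofPred_eq] at hx hy ⊢
    have h1 := hS' _ (hsm 2 x hx) _ (hsm 2 y hy) (2⁻¹)
    have h2 : v + (2 : ZMod p) • x + (2 : ZMod p)⁻¹ • (v + (2 : ZMod p) • y -
        (v + (2 : ZMod p) • x)) = v + (x + y) := by
      funext i
      simp only [Pi.add_apply, Pi.smul_apply, Pi.sub_apply, smul_eq_mul]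
      field_simp
      ring
    rwa [h2] at h1
  · rw [Set.mem_ofPred_eq, add_zero]
    exact hv
  · intro t x hx
    exact hsm t x hx
  · ext x
    change x ∈ S ↔ v + (x - v) ∈ S
    rw [add_sub_cancel]

/-- **Answer to Q1.** Let `p` be a prime with `p ≡ 1 (mod s)`, where `s ≥ 8`, and let `A'` be the
copy of `A = AG(d,p)` transported by the permutation `g` of the point set. If every nonempty
intersection of a flat of `A` and a flat of `A'` has size `≡ 1 (mod s)`, then `A'` and `A` have
the same flats. -/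
theorem result (p s d : ℕ) [Fact p.Prime] (hs : 8 ≤ s) (hps : p ≡ 1 [MOD s])
    (g : Equiv.Perm (Fin d → ZMod p))
    (h : ∀ X ∈ flats p d, ∀ Y ∈ flats p d, (X ∩ g '' Y).Nonempty →
      (X ∩ g '' Y).ncard ≡ 1 [MOD s]) :
    (fun Y : Set (Fin d → ZMod p) => g '' Y) '' flats p d = flats p d := by
  classical
  have hp1 : 1 < p := (Fact.out : p.Prime).one_lt
  have hp9 : 9 ≤ p := by
    have h4 : s ∣ p - 1 := (Nat.modEq_iff_dvd' hp1.le).1 hps.symm
    have h5 := Nat.le_of_dvd (by omega) h4
    omega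
  have hp2 : (2 : ZMod p) ≠ 0 := by
    intro h2
    have h3 : ((2 : ℕ) : ZMod p) = 0 := by exact_mod_cast h2
    rw [ZMod.natCast_eq_zero_iff] at h3
    have := Nat.le_of_dvd (by norm_num) h3
    omega
  have hpull : (fun Y : Set (Fin d → ZMod p) => g ⁻¹' Y) '' flats p d ⊆ flats p d := by
    rintro _ ⟨Y, hY, rfl⟩
    obtain ⟨v, W, rfl⟩ := hY
    apply flat_of_closed hp2
    · exact ⟨g.symm v, by simp⟩
    · intro u hu w hw huw z hz
      have h1 := lines_pulled_back' (by omega) hs g h u w huw z hz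
      obtain ⟨t, ht⟩ := h1
      rw [Set.mem_preimage, Set.mem_ofPred_eq] at hu hw ⊢
      rw [ht]
      have h2 : g u + t • (g w - g u) - v = (g u - v) + t • ((g w - v) - (g u - v)) := by
        rw [sub_sub_sub_cancel_right]
        abel
      rw [h2]
      exact W.add_mem hu (W.smul_mem t (W.sub_mem hw hu))
  have hinj : Function.Injective (fun Y : Set (Fin d → ZMod p) => g ⁻¹' Y) :=
    Set.preimage_injective.2 g.surjective
  have heq : (fun Y : Set (Fin d → ZMod p) => g ⁻¹' Y) '' flats p d = flats p d := by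
    apply Set.eq_of_subset_of_ncard_le hpull
    rw [Set.ncard_image_of_injective _ hinj]
  calc (fun Y : Set (Fin d → ZMod p) => g '' Y) '' flats p d
      = (fun Y : Set (Fin d → ZMod p) => g '' Y) ''
        ((fun Y : Set (Fin d → ZMod p) => g ⁻¹' Y) '' flats p d) := by rw [heq]
    _ = flats p d := by
        rw [Set.image_image]
        simp

end Pool.Agent.Results.MP_66067f_co.IntersectOneModS
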